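import Pool.Agent.X53.Blk

/-!
# MP_7230e4_co: minimal versus tangential blocks with a modular copoint

There is a minimal `1`-block over `GF(7)`, of rank five and with twenty-six points, that has a
modular copoint but is not a tangential `1`-block.
-/

namespace Pool.Agent.Results.MP_7230e4_co.MinimalNotTangential

open Pool.Agent.Helper236 Pool.Agent.X53.Blk Set Module

/-- The critical exponent `c(M; q)`: the least `c` with `χ(M; q ^ c) ≠ 0`. -/
noncomputable def critNe {α : Type} (M : Matroid α) (q : ℕ) : ℕ∞ :=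
  ⨅ j ∈ {j : ℕ | (charPoly M).eval ((q : ℤ) ^ j) ≠ 0}, (j : ℕ∞)

/-- `M` is a geometry representable over `F`: a finite simple matroid labelled by vectors. -/
def IsGeometry (F : Type) [Field F] {α : Type} (M : Matroid α) : Prop :=
  M.Finite ∧ IsSimple M ∧ Representable F M

/-- `M` is a `k`-block over `F`. -/
def IsBlock (F : Type) [Field F] (k : ℕ) {α : Type} (M : Matroid α) : Prop :=
  IsGeometry F M ∧ (k : ℕ∞) < critNe M (Nat.card F)

/-- `M` is a minimal `k`-block over `F`. -/
def IsMinimalBlock (F : Type) [Field F] (k : ℕ) {α : Type} (M : Matroid α) : Prop :=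
  IsBlock F k M ∧ ∀ x ∈ M.E, critNe (M.delete {x}) (Nat.card F) ≤ k

/-- In the representation `v` of `M` in `F ^ n`, the set `Y` has a tangent of codimension `k`:
a subspace `U` of dimension `n - k` with `U ∩ S = Y`. -/
def HasTangent {F : Type} [Field F] (k n : ℕ) {α : Type} (M : Matroid α) (v : α → (Fin n → F))
    (Y : Set α) : Prop :=
  ∃ U : Submodule F (Fin n → F), finrank F U + k = n ∧ ∀ e ∈ M.E, v e ∈ U ↔ e ∈ Y

/-- `M` is a tangential `k`-block with respect to the spanning representation `v` in `F ^ n`: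
every nonempty flat of rank at most `n - k` has a tangent of codimension `k`. -/
def IsTangentialIn {F : Type} [Field F] (k n : ℕ) {α : Type} (M : Matroid α)
    (v : α → (Fin n → F)) : Prop :=
  ∀ Y, M.IsFlat Y → Y.Nonempty → rk M Y + k ≤ n → HasTangent k n M v Y

/-- A modular copoint: a flat of rank `r(M) - 1` which meets every line (flat of rank two). -/
def IsModularCopoint {α : Type} (M : Matroid α) (X : Set α) : Prop :=
  M.IsFlat X ∧ rk M X + 1 = rk M M.E ∧ ∀ L, M.IsFlat L → rk M L = 2 → (L ∩ X).Nonempty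

/-! ### The two forms of the critical exponent agree -/

theorem eval_nonneg {F : Type} [Field F] [Finite F] {n : ℕ} {α : Type} {M : Matroid α} [M.Finite]
    {v : α → (Fin n → F)} (h : Rep F M v) (k : ℕ) :
    0 ≤ (charPoly M).eval ((Nat.card F : ℤ) ^ k) := by
  have h1 := crapo_rota h k
  have hq : (0 : ℤ) < (Nat.card F : ℤ) ^ (k * (finrank F (Fin n → F) - rk M M.E)) := by
    have : 0 < Nat.card F := Nat.card_pos
    positivity
  by_contra hneg
  rw [not_le] at hneg
  have h2 := mul_neg_of_pos_of_neg hq hneg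
  rw [← h1] at h2
  have h3 : (0 : ℤ) ≤ (Nat.card {f : (Fin n → F) →ₗ[F] (Fin k → F) //
    ∀ e ∈ M.E, f (v e) ≠ 0} : ℤ) := Int.natCast_nonneg _
  omega

theorem critNe_eq {F : Type} [Field F] [Finite F] {n : ℕ} {α : Type} {M : Matroid α} [M.Finite]
    {v : α → (Fin n → F)} (h : Rep F M v) : critNe M (Nat.card F) = critExp M (Nat.card F) := by
  rw [critNe, critExp]
  congr 1
  ext j
  have : (charPoly M).eval ((Nat.card F : ℤ) ^ j) ≠ 0 ↔
      0 < (charPoly M).eval ((Nat.card F : ℤ) ^ j) := by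
    have := eval_nonneg h j
    omega
  simp only [Set.mem_ofPred_eq, this]

/-! ### The example -/

/-- The entries of the twenty-six vectors. -/
def vec : ℕ → ℕ → ℕ :=
  dec 25110850853406907050698422665346317867960407299925293518079555997868209046339878478269159861702459753194102829 5

def wU : List (ℕ × ℕ × ℕ × ℕ) :=
  [(0, 0, 1, 0), (7, 7, 1, 0), (15, 7, 1, 6), (11, 7, 4, 3), (8, 7, 4, 3)]

def w1 : List ℕ :=
  [7, 43, 22, 15, 12706, 29, 8, 12741, 15989, 11530, 3788, 9472, 5846, 5356, 9227, 176, 5503,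
   5797, 7519, 8786, 8051, 8198, 7470, 11978, 1681, 12972]

theorem c1 : chkSimple 26 5 vec = true := by decide +kernel

theorem c2 : chkDiff 26 5 vec = true := by decide +kernel

theorem c3 : chkUnit 26 5 vec wU = true := by decide +kernel

theorem c4 : chkSingle 26 5 vec w1 = true := by decide +kernel

/-- The coefficients of the functionals vanishing at the points `14` and `19`. -/
def cof (a b c j : ℕ) : ℕ :=
  if j = 0 then a else if j = 1 then b else if j = 2 then 5 * b + 6 * c else if j = 3 then b + c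
    else c

/-- Every functional vanishing at the points `14` and `19` vanishes at another point. -/
def chkBad : Bool :=
  (List.range 7).all fun a => (List.range 7).all fun b => (List.range 7).all fun c =>
    (List.range 26).any fun x => x != 14 && x != 19 && dot 5 (cof a b c) (vec x) % 7 == 0

theorem c5 : chkBad = true := by decide +kernel

/-- No other point is on the line through the points `14` and `19`. -/
def chkFlat : Bool :=
  (List.range 26).all fun x => x == 14 || x == 19 || !onLine 5 vec 14 19 x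

theorem c6 : chkFlat = true := by decide +kernel

/-- The matroid. -/
noncomputable abbrev ex : Matroid (Fin 26) := mat 26 5 vec

theorem card7 : Nat.card (ZMod 7) = 7 := by simp

theorem ex_rep : Rep (ZMod 7) ex (vv vec : Fin 26 → (Fin 5 → ZMod 7)) := mat_rep 26 5 vec

theorem ex_simple : IsSimple ex := isSimple_of_chk c1

theorem ex_rank : rk ex ex.E = 5 := rk_ground_of_chk c3

/-- The flat without tangent. -/
def bad : Set (Fin 26) := {14, 19}

theorem bad_flat : ex.IsFlat bad := by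
  rw [Matroid.isFlat_iff_closure_eq]
  apply Set.Subset.antisymm _ (ex.subset_closure bad (Set.subset_univ _))
  intro x hx
  rw [bad, mem_closure_pair, ← onLine_iff] at hx
  have h := c6
  simp only [chkFlat, List.all_eq_true, List.mem_range, Bool.or_eq_true, beq_iff_eq,
    Bool.not_eq_true'] at h
  rcases h x x.2 with (h1 | h1) | h1
  · left
    exact Fin.ext h1
  · right
    exact Fin.ext h1
  · have h2 : onLine 5 vec 14 19 x = true := hx
    rw [h2] at h1
    exact absurd h1 (by simp)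

theorem bad_rank : rk ex bad = 2 := by
  have h : ex.Indep bad := ex_simple 14 (Set.mem_univ _) 19 (Set.mem_univ _)
  rw [rk, h.eRk_eq_encard, bad, Set.encard_pair (by decide)]
  rfl

/-- Every functional vanishing on the bad flat vanishes at another point. -/
theorem exists_zero_of_bad (f : (Fin 5 → ZMod 7) →ₗ[ZMod 7] ZMod 7)
    (hf : ∀ x ∈ bad, f (vv vec x) = 0) : ∃ x : Fin 26, x ∉ bad ∧ f (vv vec x) = 0 := by
  obtain ⟨a, ha, rfl⟩ := exists_fn f
  have h14 := hf 14 (Or.inl rfl)
  have h19 := hf 19 (Or.inr rfl)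
  rw [fn_vv_eq_zero_iff] at h14 h19
  have e14 : dot 5 a (vec ((14 : Fin 26) : ℕ)) = a 1 + 6 * a 3 + a 4 := by
    have h : vec 14 0 = 0 ∧ vec 14 1 = 1 ∧ vec 14 2 = 0 ∧ vec 14 3 = 6 ∧ vec 14 4 = 1 := by
      decide +kernel
    change 0 + a 0 * vec 14 0 + a 1 * vec 14 1 + a 2 * vec 14 2 + a 3 * vec 14 3 +
      a 4 * vec 14 4 = _
    rw [h.1, h.2.1, h.2.2.1, h.2.2.2.1, h.2.2.2.2]
    ring
  have e19 : dot 5 a (vec ((19 : Fin 26) : ℕ)) = a 1 + 3 * a 2 + 5 * a 3 + 5 * a 4 := by
    have h : vec 19 0 = 0 ∧ vec 19 1 = 1 ∧ vec 19 2 = 3 ∧ vec 19 3 = 5 ∧ vec 19 4 = 5 := by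
      decide +kernel
    change 0 + a 0 * vec 19 0 + a 1 * vec 19 1 + a 2 * vec 19 2 + a 3 * vec 19 3 +
      a 4 * vec 19 4 = _
    rw [h.1, h.2.1, h.2.2.1, h.2.2.2.1, h.2.2.2.2]
    ring
  rw [e14] at h14
  rw [e19] at h19
  have h3 : a 3 % 7 = (a 1 + a 4) % 7 := by omega
  have h2 : a 2 % 7 = (5 * a 1 + 6 * a 4) % 7 := by omega
  have h5 := c5
  simp only [chkBad, List.all_eq_true, List.mem_range, List.any_eq_true, Bool.and_eq_true,
    bne_iff_ne, ne_eq, beq_iff_eq] at h5
  obtain ⟨x, hx, ⟨hx14, hx19⟩, h0⟩ := h5 (a 0) (ha 0) (a 1) (ha 1) (a 4) (ha 4)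
  refine ⟨⟨x, hx⟩, ?_, ?_⟩
  · rintro (h | h)
    · exact hx14 (congrArg Fin.val h)
    · exact hx19 (congrArg Fin.val h)
  · rw [fn_vv_eq_zero_iff]
    change (0 + a 0 * vec x 0 + a 1 * vec x 1 + a 2 * vec x 2 + a 3 * vec x 3 +
      a 4 * vec x 4) % 7 = 0
    have h0' : (0 + a 0 * vec x 0 + a 1 * vec x 1 + (5 * a 1 + 6 * a 4) * vec x 2 +
      (a 1 + a 4) * vec x 3 + a 4 * vec x 4) % 7 = 0 := h0
    have m2 : (a 2 * vec x 2) % 7 = ((5 * a 1 + 6 * a 4) * vec x 2) % 7 := by
      rw [Nat.mul_mod, h2, ← Nat.mul_mod]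
    have m3 : (a 3 * vec x 3) % 7 = ((a 1 + a 4) * vec x 3) % 7 := by
      rw [Nat.mul_mod, h3, ← Nat.mul_mod]
    omega

theorem bad_crit : ¬ critExp ((ex.contract bad).delete ∅) (Nat.card (ZMod 7)) ≤ ((1 : ℕ) : ℕ∞) := by
  rw [minor_critExp_le_iff ex_rep 1 bad ∅ (Set.subset_univ _)]
  rintro ⟨f, hf1, hf2⟩
  obtain ⟨x, hx, h0⟩ := exists_zero_of_bad ((LinearMap.proj 0).comp f) (fun x hx => by
    rw [LinearMap.comp_apply, hf1 x hx, map_zero])
  refine hf2 x ⟨⟨Set.mem_univ _, hx⟩, by simp⟩ ?_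
  ext i
  rw [Subsingleton.elim i 0]
  exact h0

theorem not_tangentialIn (n : ℕ) (v : Fin 26 → (Fin n → ZMod 7)) (hv : Rep (ZMod 7) ex v)
    (hspan : Submodule.span (ZMod 7) (v '' ex.E) = ⊤) : ¬ IsTangentialIn 1 n ex v := by
  intro ht
  have hn : n = 5 := by
    have h1 := ex_rank
    rw [hv.rk_eq Subset.rfl, hspan, finrank_top] at h1
    simpa using h1
  subst hn
  obtain ⟨U, hU, hUe⟩ := ht bad bad_flat ⟨14, Or.inl rfl⟩ (by rw [bad_rank]; norm_num)
  have hne : U ≠ ⊤ := by
    rintro rfl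
    rw [finrank_top] at hU
    simp at hU
  obtain ⟨w, -, hw⟩ := SetLike.exists_of_lt (lt_top_iff_ne_top.2 hne)
  obtain ⟨φ, hφ1, hφ2⟩ := Submodule.exists_le_ker_of_notMem hw
  have hker : U = LinearMap.ker φ := by
    apply Submodule.eq_of_le_of_finrank_le hφ2
    have h1 : LinearMap.ker φ < ⊤ := by
      rw [lt_top_iff_ne_top]
      intro h
      apply hφ1
      have : w ∈ LinearMap.ker φ := by rw [h]; trivial
      exact this
    have h2 := Submodule.finrank_lt_finrank_of_lt h1
    rw [finrank_top] at h2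
    simp only [Module.finrank_fintype_fun_eq_card, Fintype.card_fin] at h2
    omega
  apply bad_crit
  rw [minor_critExp_le_iff hv 1 bad ∅ (Set.subset_univ _)]
  refine ⟨LinearMap.pi fun _ => φ, ?_, ?_⟩
  · intro c hc
    have h1 : v c ∈ U := (hUe c (Set.mem_univ _)).2 hc
    rw [hker] at h1
    ext i
    exact h1
  · rintro e ⟨⟨he, heb⟩, -⟩ h0
    apply heb
    apply (hUe e he).1
    rw [hker]
    exact congrFun h0 0

theorem ex_minimal : IsMinimalBlock (ZMod 7) 1 ex := by
  refine ⟨⟨⟨inferInstance, ex_simple, ⟨5, vv vec, ex_rep⟩⟩, ?_⟩, ?_⟩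
  · rw [critNe_eq ex_rep, card7]
    exact lt_critExp_of_chk c2 (by norm_num)
  · intro x _
    have hrep' : Rep (ZMod 7) (ex.delete {x}) (vv vec : Fin 26 → (Fin 5 → ZMod 7)) := by
      intro I hI
      rw [Matroid.delete_indep_iff, ex_rep I (Set.subset_univ _), and_iff_left]
      rw [Set.disjoint_left]
      intro y hy
      exact (hI hy).2
    rw [critNe_eq hrep']
    have h1 := critExp_le_iff hrep' 1
    rw [Nat.cast_one] at h1
    rw [Nat.cast_one, h1]
    obtain ⟨f, -, hf⟩ := single_of_chk c4 x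
    refine ⟨LinearMap.pi fun _ => f, ?_⟩
    rintro e ⟨-, he⟩ h0
    exact hf e he (congrFun h0 0)

/-- **MP_7230e4_co, Q1: yes.** There is a geometry representable over `GF(7)`, of rank five and
with twenty-six points, which has a modular copoint and is a minimal `1`-block over `GF(7)` but is
not a tangential `1`-block over `GF(7)` (in any spanning representation). -/
theorem result : ∃ M : Matroid (Fin 26), IsMinimalBlock (ZMod 7) 1 M ∧
    (∃ X, IsModularCopoint M X ∧ IsModularHyperplane M X) ∧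
    (∃ v : Fin 26 → (Fin 5 → ZMod 7), Rep (ZMod 7) M v ∧
      Submodule.span (ZMod 7) (v '' M.E) = ⊤) ∧
    (∀ (n : ℕ) (v : Fin 26 → (Fin n → ZMod 7)), Rep (ZMod 7) M v →
      Submodule.span (ZMod 7) (v '' M.E) = ⊤ → ¬ IsTangentialIn 1 n M v) ∧
    M.E = Set.univ ∧ rk M M.E = 5 := by
  have hmod : IsModularHyperplane ex {x | 7 ≤ (x : ℕ)} :=
    isModularHyperplane_of_chk c1 c2 c3 (by norm_num) (by norm_num)
  refine ⟨ex, ex_minimal, ⟨_, ⟨hmod.1.1, hmod.2, ?_⟩, hmod⟩, ⟨vv vec, ex_rep, ?_⟩,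
    not_tangentialIn, rfl, ex_rank⟩
  · intro L hL hL2
    have h1 := hmod.1.2 L hL
    have h2 := hmod.2
    rw [ex_rank] at h2
    have h3 : rk ex ({x | 7 ≤ (x : ℕ)} ∪ L) ≤ 5 := rk_le _
    rw [Set.inter_comm]
    by_contra hemp
    rw [Set.not_nonempty_iff_eq_empty] at hemp
    rw [hemp, hL2] at h1
    have h4 : rk ex ∅ = 0 := by simp [rk]
    omega
  · exact span_of_chk c3

end Pool.Agent.Results.MP_7230e4_co.MinimalNotTangential
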